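import Mathlib

/-!
The Bishop-Phelps-Bollobás theorem for functionals on an arbitrary (real or complex) Banach space.
-/

set_option autoImplicit false
open Filter Topology Set

namespace Pool.Agent.Helper15.BPB

section Real

variable {X : Type*} [NormedAddCommGroup X] [NormedSpace ℝ X]

/-- a point of the unit ball that is maximal for the Bishop-Phelps ordering -/
theorem exists_maximal_point [CompleteSpace X] (f : X →L[ℝ] ℝ) {k : ℝ} (hk : 0 < k) (x₀ : X)
    (hx₀ : ‖x₀‖ ≤ 1) :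
    ∃ x₁ : X, ‖x₁‖ ≤ 1 ∧ k * ‖x₁ - x₀‖ ≤ f x₁ - f x₀ ∧
      ∀ y, ‖y‖ ≤ 1 → k * ‖y - x₁‖ ≤ f y - f x₁ → y = x₁ := by
  let D : Set X := {y | ‖y‖ ≤ 1 ∧ k * ‖y - x₀‖ ≤ f y - f x₀}
  have hD0 : x₀ ∈ D := ⟨hx₀, by simp⟩
  have hDc : IsClosed D :=
    (isClosed_le continuous_norm continuous_const).inter
      (isClosed_le (f := fun y : X => k * ‖y - x₀‖) (g := fun y : X => f y - f x₀)
        (by fun_prop) (by fun_prop))
  have hbnd : ∀ y ∈ D, f y ≤ ‖f‖ := by
    intro y hy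
    have h1 := (le_abs_self (f y)).trans (f.le_opNorm y)
    have h2 : ‖f‖ * ‖y‖ ≤ ‖f‖ * 1 := mul_le_mul_of_nonneg_left hy.1 (norm_nonneg _)
    linarith
  let r : D → D → Prop := fun a b => k * ‖(b : X) - a‖ ≤ f b - f a
  have : Nonempty D := ⟨⟨x₀, hD0⟩⟩
  have htrans : ∀ {a b c : D}, r a b → r b c → r a c := by
    intro a b c hab hbc
    have h1 : ‖(c : X) - a‖ ≤ ‖(c : X) - b‖ + ‖(b : X) - a‖ := norm_sub_le_norm_sub_add_norm_sub _ _ _
    have h2 := mul_le_mul_of_nonneg_left h1 hk.le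
    have hab' : k * ‖(b : X) - a‖ ≤ f b - f a := hab
    have hbc' : k * ‖(c : X) - b‖ ≤ f c - f b := hbc
    change k * ‖(c : X) - a‖ ≤ f c - f a
    linarith
  have hchain : ∀ c, IsChain r c → c.Nonempty → ∃ ub, ∀ a ∈ c, r a ub := by
    intro c hc hcn
    have hbdd : BddAbove ((fun a : D => f (a : X)) '' c) := by
      refine ⟨‖f‖, ?_⟩
      rintro _ ⟨a, -, rfl⟩
      exact hbnd a a.2
    set M := sSup ((fun a : D => f (a : X)) '' c) with hM
    have hle : ∀ a ∈ c, f (a : X) ≤ M := fun a ha => le_csSup hbdd ⟨a, ha, rfl⟩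
    have hseq : ∀ n : ℕ, ∃ a ∈ c, M - 1 / ((n : ℝ) + 1) < f (a : X) := by
      intro n
      have hpos : (0 : ℝ) < 1 / ((n : ℝ) + 1) := by positivity
      obtain ⟨_, ⟨a, ha, rfl⟩, h⟩ := exists_lt_of_lt_csSup (hcn.image (fun a : D => f (a : X)))
        (show M - 1 / ((n : ℝ) + 1) < M by linarith)
      exact ⟨a, ha, h⟩
    choose a ha hfa using hseq
    have hcomp : ∀ a ∈ c, ∀ b ∈ c, k * ‖(b : X) - a‖ ≤ |f (b : X) - f (a : X)| := by
      intro a ha b hb
      by_cases hab : a = b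
      · subst hab
        simp
      · rcases hc ha hb hab with h | h
        · exact (show k * ‖(b : X) - a‖ ≤ f b - f a from h).trans (le_abs_self _)
        · have h' : k * ‖(a : X) - b‖ ≤ f a - f b := h
          rw [norm_sub_rev, abs_sub_comm]
          exact h'.trans (le_abs_self _)
    have hcauchy : CauchySeq (fun n => (a n : X)) := by
      refine cauchySeq_of_le_tendsto_0 (fun N : ℕ => (1 / ((N : ℝ) + 1)) / k) ?_ ?_
      · intro n m N hn hm
        rw [dist_eq_norm, le_div_iff₀ hk, mul_comm]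
        refine (hcomp _ (ha m) _ (ha n)).trans ?_
        have h1 := hle _ (ha n)
        have h2 := hle _ (ha m)
        have h3 := hfa n
        have h4 := hfa m
        have h5 : (1 : ℝ) / ((n : ℝ) + 1) ≤ 1 / ((N : ℝ) + 1) :=
          one_div_le_one_div_of_le (by positivity) (by
            have : (N : ℝ) ≤ n := by exact_mod_cast hn
            linarith)
        have h6 : (1 : ℝ) / ((m : ℝ) + 1) ≤ 1 / ((N : ℝ) + 1) :=
          one_div_le_one_div_of_le (by positivity) (by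
            have : (N : ℝ) ≤ m := by exact_mod_cast hm
            linarith)
        rw [abs_le]
        constructor <;> linarith
      · have := (tendsto_one_div_add_atTop_nhds_zero_nat (𝕜 := ℝ)).div_const k
        simpa using this
    obtain ⟨z, hz⟩ := cauchySeq_tendsto_of_complete hcauchy
    have hzD : z ∈ D := hDc.mem_of_tendsto hz (Eventually.of_forall fun n => (a n).2)
    have hfz : Tendsto (fun n => f (a n : X)) atTop (𝓝 (f z)) :=
      (f.continuous.tendsto z).comp hz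
    have hMz : M ≤ f z := by
      have h1 : Tendsto (fun n : ℕ => M - 1 / ((n : ℝ) + 1)) atTop (𝓝 (M - 0)) :=
        tendsto_const_nhds.sub (tendsto_one_div_add_atTop_nhds_zero_nat (𝕜 := ℝ))
      rw [sub_zero] at h1
      exact le_of_tendsto_of_tendsto' h1 hfz (fun n => (hfa n).le)
    refine ⟨⟨z, hzD⟩, fun b hb => ?_⟩
    change k * ‖z - b‖ ≤ f z - f b
    have h1 : Tendsto (fun n => k * ‖(a n : X) - b‖) atTop (𝓝 (k * ‖z - b‖)) :=
      (hz.sub_const _).norm.const_mul k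
    have h2 : Tendsto (fun n => |f (a n : X) - f (b : X)|) atTop (𝓝 |f z - f b|) :=
      (hfz.sub_const _).abs
    have h3 := le_of_tendsto_of_tendsto' h1 h2 (fun n => hcomp _ hb _ (ha n))
    have h4 := hle b hb
    rwa [abs_of_nonneg (by linarith)] at h3
  obtain ⟨m, hm⟩ := exists_maximal_of_nonempty_chains_bounded hchain htrans
  refine ⟨m, m.2.1, m.2.2, fun y hy hym => ?_⟩
  have hyD : y ∈ D := by
    refine ⟨hy, ?_⟩
    have h1 : ‖y - x₀‖ ≤ ‖y - m‖ + ‖(m : X) - x₀‖ := norm_sub_le_norm_sub_add_norm_sub _ _ _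
    have h2 := mul_le_mul_of_nonneg_left h1 hk.le
    have h3 := m.2.2
    linarith
  have h2 : k * ‖(m : X) - y‖ ≤ f m - f y := hm ⟨y, hyD⟩ hym
  have h3 : k * ‖y - m‖ ≤ 0 := by
    rw [norm_sub_rev] at h2
    linarith
  have h4 : ‖y - m‖ ≤ 0 := by
    by_contra hcon
    push Not at hcon
    have := mul_pos hk hcon
    linarith
  exact sub_eq_zero.1 (norm_le_zero_iff.1 h4)

/-- a support functional close to `f` -/
theorem exists_support (f : X →L[ℝ] ℝ) {k : ℝ} (hk : 0 < k) (x₁ : X) (hx₁ : ‖x₁‖ ≤ 1)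
    (h : ∀ y, ‖y‖ ≤ 1 → f y - f x₁ ≤ k * ‖y - x₁‖) :
    ∃ g : X →L[ℝ] ℝ, ‖g - f‖ ≤ k ∧ ∀ y, ‖y‖ ≤ 1 → g y ≤ g x₁ := by
  let E : Set (X × ℝ) := {p | k * ‖p.1 - x₁‖ < p.2}
  let A : Set (X × ℝ) := {p | ‖p.1‖ ≤ 1 ∧ p.2 ≤ f p.1 - f x₁}
  have hEo : IsOpen E := isOpen_lt (by fun_prop) (by fun_prop)
  have hEc : Convex ℝ E := by
    rw [convex_iff_forall_pos]
    rintro p hp q hq a b ha hb hab
    have hp' : k * ‖p.1 - x₁‖ < p.2 := hp
    have hq' : k * ‖q.1 - x₁‖ < q.2 := hq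
    change k * ‖a • p.1 + b • q.1 - x₁‖ < a * p.2 + b * q.2
    have e : a • p.1 + b • q.1 - x₁ = a • (p.1 - x₁) + b • (q.1 - x₁) := by
      rw [smul_sub, smul_sub]
      have : x₁ = a • x₁ + b • x₁ := by rw [← add_smul, hab, one_smul]
      nth_rewrite 1 [this]
      abel
    have h1 : ‖a • (p.1 - x₁) + b • (q.1 - x₁)‖ ≤ a * ‖p.1 - x₁‖ + b * ‖q.1 - x₁‖ := by
      refine (norm_add_le _ _).trans_eq ?_
      rw [norm_smul, norm_smul, Real.norm_of_nonneg ha.le, Real.norm_of_nonneg hb.le]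
    rw [e]
    have h2 := mul_le_mul_of_nonneg_left h1 hk.le
    have h3 := mul_lt_mul_of_pos_left hp' ha
    have h4 := mul_lt_mul_of_pos_left hq' hb
    nlinarith
  have hAc : Convex ℝ A := by
    rintro p hp q hq a b ha hb hab
    refine ⟨?_, ?_⟩
    · change ‖a • p.1 + b • q.1‖ ≤ 1
      refine (norm_add_le _ _).trans ?_
      rw [norm_smul, norm_smul, Real.norm_of_nonneg ha, Real.norm_of_nonneg hb]
      have h1 := mul_le_mul_of_nonneg_left hp.1 ha
      have h2 := mul_le_mul_of_nonneg_left hq.1 hb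
      linarith
    · change a * p.2 + b * q.2 ≤ f (a • p.1 + b • q.1) - f x₁
      rw [map_add, map_smul, map_smul, smul_eq_mul, smul_eq_mul]
      have h1 := mul_le_mul_of_nonneg_left hp.2 ha
      have h2 := mul_le_mul_of_nonneg_left hq.2 hb
      have h3 : f x₁ = a * f x₁ + b * f x₁ := by rw [← add_mul, hab, one_mul]
      nlinarith
  have hdis : Disjoint E A := by
    rw [Set.disjoint_left]
    rintro p hp hq
    have hp' : k * ‖p.1 - x₁‖ < p.2 := hp
    have := h p.1 hq.1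
    linarith [hq.2]
  obtain ⟨φ, u, hφE, hφA⟩ := geometric_hahn_banach_open hEc hEo hAc hdis
  let hh : X →L[ℝ] ℝ := φ.comp (ContinuousLinearMap.inl ℝ X ℝ)
  set c : ℝ := φ (0, 1) with hc
  have hφ : ∀ y t, φ (y, t) = hh y + t * c := by
    intro y t
    have : ((y, t) : X × ℝ) = (y, 0) + t • ((0 : X), (1 : ℝ)) := by
      ext <;> simp
    rw [this, map_add, map_smul, smul_eq_mul]
    rfl
  have a1 : u ≤ hh x₁ := by
    have := hφA (x₁, 0) ⟨hx₁, by simp⟩
    rw [hφ] at this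
    linarith
  have a2 : ∀ y t, k * ‖y - x₁‖ < t → hh y + t * c < u := by
    intro y t ht
    have := hφE (y, t) ht
    rwa [hφ] at this
  have hcneg : c < 0 := by
    have := a2 x₁ 1 (by simp)
    linarith
  have hc0 : c ≠ 0 := hcneg.ne
  have a3 : ∀ y, hh y + (k * ‖y - x₁‖) * c ≤ u := by
    intro y
    apply le_of_forall_pos_le_add
    intro ε hε
    have h1 := a2 y (k * ‖y - x₁‖ + ε / (-c)) (by
      have : 0 < ε / (-c) := div_pos hε (by linarith)
      linarith)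
    have h2 : ε / (-c) * c = -ε := by
      field_simp
    rw [add_mul, h2] at h1
    linarith
  have a4 : hh x₁ ≤ u := by
    have := a3 x₁
    simpa using this
  let h' : X →L[ℝ] ℝ := (-c)⁻¹ • hh
  have hcpos : 0 < (-c)⁻¹ := inv_pos.2 (by linarith)
  have b1 : ∀ y, h' y - h' x₁ ≤ k * ‖y - x₁‖ := by
    intro y
    have h1 := a3 y
    have h2 : hh y - hh x₁ ≤ (k * ‖y - x₁‖) * (-c) := by linarith
    have h3 := mul_le_mul_of_nonneg_left h2 hcpos.le
    change (-c)⁻¹ * hh y - (-c)⁻¹ * hh x₁ ≤ _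
    have h4 : (-c)⁻¹ * ((k * ‖y - x₁‖) * (-c)) = k * ‖y - x₁‖ := by
      field_simp
    linarith
  have b2 : ∀ y, ‖y‖ ≤ 1 → h' x₁ ≤ h' y - (f y - f x₁) := by
    intro y hy
    have h1 := hφA (y, f y - f x₁) ⟨hy, le_rfl⟩
    rw [hφ] at h1
    have h2 : hh x₁ ≤ hh y + (f y - f x₁) * c := a4.trans h1
    have h3 := mul_le_mul_of_nonneg_left h2 hcpos.le
    change (-c)⁻¹ * hh x₁ ≤ (-c)⁻¹ * hh y - _
    have h4 : (-c)⁻¹ * (hh y + (f y - f x₁) * c) = (-c)⁻¹ * hh y - (f y - f x₁) := by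
      field_simp
      ring
    linarith
  refine ⟨f - h', ?_, ?_⟩
  · have e : f - h' - f = -h' := by abel
    rw [e, norm_neg]
    apply ContinuousLinearMap.opNorm_le_bound _ hk.le
    intro v
    have h1 := b1 (x₁ + v)
    have h2 := b1 (x₁ - v)
    have h4 : x₁ + v - x₁ = v := by abel
    rw [map_add, h4] at h1
    rw [map_sub] at h2
    have h3 : x₁ - v - x₁ = -v := by abel
    rw [h3, norm_neg] at h2
    rw [Real.norm_eq_abs, abs_le]
    constructor <;> linarith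
  · intro y hy
    have := b2 y hy
    change f y - h' y ≤ f x₁ - h' x₁
    linarith

/-- **The Bishop-Phelps-Bollobás theorem** for functionals, real scalars. -/
theorem bpb_real [CompleteSpace X] {ε : ℝ} (hε : 0 < ε) (hε1 : ε ≤ 1) (f : X →L[ℝ] ℝ)
    (hf : ‖f‖ ≤ 1) (x₀ : X) (hx₀ : ‖x₀‖ = 1) (hfx : 1 - ε ^ 2 / 8 < f x₀) :
    ∃ (x : X) (g : X →L[ℝ] ℝ), ‖x‖ = 1 ∧ ‖g‖ ≤ 1 ∧ g x = 1 ∧ ‖x - x₀‖ < ε ∧ ‖g - f‖ < ε := by
  set k := ε / 4 with hkdef
  have hk : 0 < k := by positivity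
  obtain ⟨x₁, hx₁, hd, hmax⟩ := exists_maximal_point f hk x₀ hx₀.le
  have hfx₁ : f x₁ ≤ 1 := by
    have h1 := (le_abs_self (f x₁)).trans (f.le_opNorm x₁)
    have h2 : ‖f‖ * ‖x₁‖ ≤ 1 * 1 := mul_le_mul hf hx₁ (norm_nonneg _) zero_le_one
    linarith
  have hsup : ∀ y, ‖y‖ ≤ 1 → f y - f x₁ ≤ k * ‖y - x₁‖ := by
    intro y hy
    by_contra hcon
    push Not at hcon
    have := hmax y hy hcon.le
    subst this
    simp at hcon
  obtain ⟨g, hgf, hg⟩ := exists_support f hk x₁ hx₁ hsup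
  set M := g x₁ with hM
  have hε2 : ε ^ 2 ≤ ε := by nlinarith
  have hdist : ‖x₁ - x₀‖ < ε := by
    have h1 : k * ‖x₁ - x₀‖ < ε ^ 2 / 8 := by linarith
    by_contra hcon
    push Not at hcon
    have h2 := mul_le_mul_of_nonneg_left hcon hk.le
    have h3 : k * ε = ε ^ 2 / 4 := by rw [hkdef]; ring
    have h4 : 0 < ε ^ 2 := by positivity
    linarith
  have hfx₁' : f x₀ ≤ f x₁ := by
    have := mul_nonneg hk.le (norm_nonneg (x₁ - x₀))
    linarith
  have hMlow : 1 - ε ^ 2 / 8 - k < M := by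
    have h1 : |(g - f) x₁| ≤ k := by
      have h2 := (g - f).le_opNorm x₁
      have h3 : ‖g - f‖ * ‖x₁‖ ≤ k * 1 := mul_le_mul hgf hx₁ (norm_nonneg _) hk.le
      rw [Real.norm_eq_abs] at h2
      linarith
    have h2 := (abs_le.1 h1).1
    have h3 : (g - f) x₁ = M - f x₁ := rfl
    rw [h3] at h2
    linarith
  have hMpos : 0 < M := by
    have : ε ^ 2 / 8 + k < 1 := by rw [hkdef]; linarith
    linarith
  have hgM : ‖g‖ ≤ M := by
    apply ContinuousLinearMap.opNorm_le_of_unit_norm hMpos.le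
    intro y hy
    rw [Real.norm_eq_abs, abs_le]
    constructor
    · have := hg (-y) (by rw [norm_neg]; exact hy.le)
      rw [map_neg] at this
      linarith
    · exact hg y hy.le
  have hx₁1 : ‖x₁‖ = 1 := by
    apply le_antisymm hx₁
    have h1 := (le_abs_self (g x₁)).trans (g.le_opNorm x₁)
    have h2 : ‖g‖ * ‖x₁‖ ≤ M * ‖x₁‖ := mul_le_mul_of_nonneg_right hgM (norm_nonneg _)
    have h3 : M * 1 ≤ M * ‖x₁‖ := by
      rw [mul_one]
      exact h1.trans h2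
    exact le_of_mul_le_mul_left h3 hMpos
  have hMup : M ≤ 1 + k := by
    have h1 := (le_abs_self (g x₁)).trans (g.le_opNorm x₁)
    rw [hx₁1, mul_one] at h1
    have h2 : ‖g‖ ≤ ‖g - f‖ + ‖f‖ := by
      have := norm_add_le (g - f) f
      rwa [sub_add_cancel] at this
    linarith
  refine ⟨x₁, M⁻¹ • g, hx₁1, ?_, ?_, hdist, ?_⟩
  · rw [norm_smul, Real.norm_of_nonneg (inv_nonneg.2 hMpos.le), inv_mul_le_iff₀ hMpos, mul_one]
    exact hgM
  · change M⁻¹ * g x₁ = 1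
    rw [← hM, inv_mul_cancel₀ hMpos.ne']
  · have e : M⁻¹ • g - f = (M⁻¹ - 1) • g + (g - f) := by
      ext v
      change M⁻¹ * g v - f v = (M⁻¹ - 1) * g v + (g v - f v)
      ring
    rw [e]
    have h1 : ‖(M⁻¹ - 1) • g‖ ≤ |1 - M| := by
      rw [norm_smul, Real.norm_eq_abs]
      have h2 : |M⁻¹ - 1| * ‖g‖ ≤ |M⁻¹ - 1| * M := mul_le_mul_of_nonneg_left hgM (abs_nonneg _)
      have h3 : |M⁻¹ - 1| * M = |1 - M| := by
        nth_rewrite 2 [← abs_of_pos hMpos]
        rw [← abs_mul, sub_mul, inv_mul_cancel₀ hMpos.ne', one_mul]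
      linarith
    have h2 : |1 - M| ≤ ε ^ 2 / 8 + k := by
      rw [abs_le]
      have : 0 ≤ ε ^ 2 / 8 := by positivity
      constructor <;> linarith
    have h3 := norm_add_le ((M⁻¹ - 1) • g) (g - f)
    have h4 : ε ^ 2 / 8 + k + k < ε := by rw [hkdef]; linarith
    linarith

end Real

/-- **The Bishop-Phelps-Bollobás theorem** for functionals on real or complex Banach spaces. -/
theorem bpb_functional (𝕜 : Type*) [RCLike 𝕜] {X : Type*} [NormedAddCommGroup X] [NormedSpace 𝕜 X]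
    [CompleteSpace X] {ε : ℝ} (hε : 0 < ε) (hε1 : ε ≤ 1) (f : X →L[𝕜] 𝕜)
    (hf : ‖f‖ ≤ 1) (x₀ : X) (hx₀ : ‖x₀‖ = 1) (hfx : 1 - ε ^ 2 / 8 < ‖f x₀‖) :
    ∃ (x : X) (g : X →L[𝕜] 𝕜), ‖x‖ = 1 ∧ ‖g‖ ≤ 1 ∧ ‖g x‖ = 1 ∧ ‖x - x₀‖ < ε ∧ ‖g - f‖ < ε := by
  let _ : NormedSpace ℝ X := .restrictScalars ℝ 𝕜 X
  have : IsScalarTower ℝ 𝕜 X := .restrictScalars ℝ 𝕜 X
  have hpos : 0 < ‖f x₀‖ := by nlinarith
  have hne : (‖f x₀‖ : 𝕜) ≠ 0 := by
    rw [Ne, RCLike.ofReal_eq_zero]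
    exact hpos.ne'
  -- a phase
  let w : 𝕜 := (starRingEnd 𝕜 (f x₀)) / (‖f x₀‖ : 𝕜)
  have hw : ‖w‖ = 1 := by
    rw [norm_div, RCLike.norm_conj, RCLike.norm_ofReal, abs_of_pos hpos, div_self hpos.ne']
  have hwf : w * f x₀ = (‖f x₀‖ : 𝕜) := by
    have h1 : starRingEnd 𝕜 (f x₀) * f x₀ = (‖f x₀‖ : 𝕜) ^ 2 := RCLike.conj_mul _
    calc w * f x₀ = (starRingEnd 𝕜 (f x₀) * f x₀) / (‖f x₀‖ : 𝕜) := by
          simp only [w]; ring
      _ = _ := by rw [h1, sq, mul_div_assoc, div_self hne, mul_one]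
  let L : StrongDual ℝ X ≃ₗᵢ[ℝ] StrongDual 𝕜 X := StrongDual.extendRCLikeₗᵢ
  have hL : ∀ (G : StrongDual ℝ X) x, RCLike.re (L G x) = G x := fun G x =>
    StrongDual.re_extendRCLike_apply G x
  let F : StrongDual ℝ X := L.symm (w • f)
  have hF : ‖F‖ ≤ 1 := by
    have : ‖F‖ = ‖w • f‖ := L.symm.norm_map _
    rw [this, norm_smul, hw, one_mul]
    exact hf
  have hFx : F x₀ = ‖f x₀‖ := by
    rw [← hL F x₀]
    have : L F = w • f := L.apply_symm_apply _
    rw [this]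
    change RCLike.re (w * f x₀) = _
    rw [hwf, RCLike.ofReal_re]
  obtain ⟨x, G, hx, hG, hGx, hd, hGF⟩ := bpb_real hε hε1 F hF x₀ hx₀ (by rw [hFx]; exact hfx)
  have hLG : ‖L G‖ ≤ 1 := by rw [L.norm_map]; exact hG
  refine ⟨x, starRingEnd 𝕜 w • L G, hx, ?_, ?_, hd, ?_⟩
  · rw [norm_smul, RCLike.norm_conj, hw, one_mul]
    exact hLG
  · change ‖starRingEnd 𝕜 w * L G x‖ = 1
    rw [norm_mul, RCLike.norm_conj, hw, one_mul]
    apply le_antisymm
    · have h1 := (L G).le_opNorm x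
      rw [hx, mul_one] at h1
      exact h1.trans hLG
    · have h1 := RCLike.re_le_norm (L G x)
      rw [hL, hGx] at h1
      exact h1
  · have hww : starRingEnd 𝕜 w * w = 1 := by
      rw [RCLike.conj_mul, hw]
      simp
    have e : starRingEnd 𝕜 w • L G - f = starRingEnd 𝕜 w • (L G - w • f) := by
      rw [smul_sub, smul_smul, hww, one_smul]
    rw [e, norm_smul, RCLike.norm_conj, hw, one_mul]
    have h1 : L G - w • f = L (G - F) := by
      rw [map_sub]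
      congr 1
      exact (L.apply_symm_apply _).symm
    rw [h1, L.norm_map]
    exact hGF

end Pool.Agent.Helper15.BPB
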